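import Pool.Agent.MP_5387a8_co.H26.Main

open Pool.Agent.MP_5387a8_co.H26 in
/-- If a PSCA(n,k,mu) exists then a PSCA(n,k,lam) exists for every
`lam ≥ (4n)^k * mu * (mu - 1)`. -/
theorem Pool.Agent.Results.MP_5387a8_co.Conductor.result (n k mu lam : ℕ) (_hk : 2 ≤ k)
    (hkn : k ≤ n) (hmu : 1 ≤ mu) (h : ∃ P : Multiset (Equiv.Perm (Fin n)), IsPSCA n k mu P)
    (hl : (4 * n) ^ k * mu * (mu - 1) ≤ lam) :
    ∃ P : Multiset (Equiv.Perm (Fin n)), IsPSCA n k lam P :=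
  conductor hkn hmu h lam hl
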