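import Pool.Agent.MP_5387a8_co.H26.Main

open Pool.Agent.MP_5387a8_co.H26 in
/-- A PSCA(n,k,lam) exists for every `lam ≥ (4n)^(6k)`. -/
theorem Pool.Agent.Results.MP_5387a8_co.Eventual.result (n k lam : ℕ) (hk : 2 ≤ k) (hkn : k ≤ n)
    (hl : (4 * n) ^ (6 * k) ≤ lam) :
    ∃ P : Multiset (Equiv.Perm (Fin n)), IsPSCA n k lam P :=
  eventually_exists (by omega) hkn lam hl
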